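import Pool.Agent.W984.PH.Stm

set_option autoImplicit false

open Finset

namespace Pool.Agent.W984.PH

/-- the constant used in the assembly -/
noncomputable def cc (r : ℕ) : ℝ := 20 * (r : ℝ) ^ 6 * bb r

lemma bb_ge (r : ℕ) (hr : 3 ≤ r) : 3 ≤ bb r := by
  unfold bb
  have : (3 : ℝ) ≤ r := by exact_mod_cast hr
  nlinarith

lemma cc_bounds (r : ℕ) (hr : 3 ≤ r) :
    1 ≤ cc r ∧ 2 * (r : ℝ) * bb r ≤ cc r ∧ 2 + 4 * (r : ℝ) ^ 6 * bb r ≤ cc r ∧ 4 * bb r ≤ cc r ∧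
      4 * (r : ℝ) ^ 4 ≤ cc r := by
  have hb := bb_ge r hr
  have h3 : (3 : ℝ) ≤ r := by exact_mod_cast hr
  have h1 : (1 : ℝ) ≤ r := by linarith
  have h6 : (1 : ℝ) ≤ (r : ℝ) ^ 6 := one_le_pow₀ h1
  have h61 : (r : ℝ) ≤ (r : ℝ) ^ 6 := by
    calc (r : ℝ) = (r : ℝ) ^ 1 := by ring
      _ ≤ (r : ℝ) ^ 6 := pow_le_pow_right₀ h1 (by norm_num)
  have h64 : (r : ℝ) ^ 4 ≤ (r : ℝ) ^ 6 := pow_le_pow_right₀ h1 (by norm_num)
  have hb0 : 0 ≤ bb r := by linarith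
  have e1 : (r : ℝ) * bb r ≤ (r : ℝ) ^ 6 * bb r := mul_le_mul_of_nonneg_right h61 hb0
  have e2 : 1 * bb r ≤ (r : ℝ) ^ 6 * bb r := mul_le_mul_of_nonneg_right h6 hb0
  have e3 : (r : ℝ) ^ 6 * 1 ≤ (r : ℝ) ^ 6 * bb r :=
    mul_le_mul_of_nonneg_left (by linarith) (by positivity)
  unfold cc
  refine ⟨?_, ?_, ?_, ?_, ?_⟩
  · nlinarith
  · nlinarith
  · nlinarith
  · nlinarith
  · nlinarith

/-- a set without a copy of `H` satisfies a second moment inequality -/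
lemma free_moment (hFREE : S_FREE) (hBL : S_BL) (hFP : S_FP)
    (r a : ℕ) (G : Finset (Finset (Fin a))) (hr : 3 ≤ r) (hG : LB r a G)
    (V : Type) [DecidableEq V] [Fintype V] (F : Finset (Finset V)) (U : Finset V) (x : V → ℝ)
    (hF : ∀ e ∈ F, e.card = r) (hx : ∀ v, 0 ≤ x v) (hfree : ¬ Emb G F U)
    (ha : (r : ℝ) + 2 ≤ (a : ℝ)) (hX : 0 < ∑ v ∈ U, x v) :
    (∑ v ∈ U, x v) ^ 2 * (1 / (a : ℝ) - cc r / (a : ℝ) ^ 2)
      ≤ (∑ v ∈ U, (x v) ^ 2) + (r.factorial : ℝ) / bb r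
        * ms x ((Finset.univ : Finset V).powersetCard r \ F) U / (∑ v ∈ U, x v) ^ (r - 2) := by
  obtain ⟨k, rfl⟩ : ∃ k, r = k + 2 := ⟨r - 2, by omega⟩
  have hbb := bb_ge (k + 2) hr
  have h1 := hFREE (k + 2) a G (by omega) hG V F U x hF hx hfree
  have h2 := hBL V x U (fun v _ => hx v) k
  rw [es_eq_ms_add x F (k + 2) hF U] at h2
  set X := ∑ v ∈ U, x v with hXdef
  set n2 := ∑ v ∈ U, (x v) ^ 2 with hn2
  set Q := ms x ((Finset.univ : Finset V).powersetCard (k + 2) \ F) U with hQ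
  have h0 : (0 : ℝ) ≤ ((k + 2 : ℕ) : ℝ) := by positivity
  have hapos : (0 : ℝ) < (a : ℝ) := by linarith
  have ha2 : (2 : ℝ) ≤ (a : ℝ) := by linarith
  have ha1 : (0 : ℝ) < (a : ℝ) - 1 := by linarith
  set κ : ℝ := 1 / ((a : ℝ) - 1) with hκ
  have hκ0 : 0 ≤ κ := by positivity
  have hκr : (((k + 2 : ℕ) : ℝ) - 1) * κ ≤ 1 := by
    rw [hκ, mul_one_div, div_le_one ha1]
    linarith
  obtain ⟨_, hfp, _, _⟩ := hFP (k + 2) κ hκ0 hκr
  have hXk : 0 < X ^ k := by positivity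
  have hXk2 : X ^ (k + 2) = X ^ k * X ^ 2 := by ring
  have hkk : k + 2 - 2 = k := by omega
  rw [hkk]
  have hrf : (0 : ℝ) < ((k + 2).factorial : ℝ) := by positivity
  -- main inequality before division
  have h3 : X ^ (k + 2) - bb (k + 2) * n2 * X ^ k
      ≤ (1 - bb (k + 2) * κ + ((k + 2 : ℕ) : ℝ) ^ 4 * κ ^ 2) * X ^ (k + 2)
        + ((k + 2).factorial : ℝ) * Q := by
    have : fp (k + 2) κ * X ^ (k + 2)
        ≤ (1 - bb (k + 2) * κ + ((k + 2 : ℕ) : ℝ) ^ 4 * κ ^ 2) * X ^ (k + 2) :=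
      mul_le_mul_of_nonneg_right hfp (by positivity)
    linarith
  have h4 : (bb (k + 2) * κ - ((k + 2 : ℕ) : ℝ) ^ 4 * κ ^ 2) * X ^ 2 * X ^ k
      ≤ bb (k + 2) * n2 * X ^ k + ((k + 2).factorial : ℝ) * Q := by
    rw [hXk2] at h3
    nlinarith
  have h5 : (κ - ((k + 2 : ℕ) : ℝ) ^ 4 / bb (k + 2) * κ ^ 2) * X ^ 2
      ≤ n2 + ((k + 2).factorial : ℝ) / bb (k + 2) * Q / X ^ k := by
    have hb0 : 0 < bb (k + 2) := by linarith
    have : (bb (k + 2) * X ^ k) * ((κ - ((k + 2 : ℕ) : ℝ) ^ 4 / bb (k + 2) * κ ^ 2) * X ^ 2)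
        ≤ (bb (k + 2) * X ^ k) * (n2 + ((k + 2).factorial : ℝ) / bb (k + 2) * Q / X ^ k) := by
      have e1 : (bb (k + 2) * X ^ k)
          * ((κ - ((k + 2 : ℕ) : ℝ) ^ 4 / bb (k + 2) * κ ^ 2) * X ^ 2)
          = (bb (k + 2) * κ - ((k + 2 : ℕ) : ℝ) ^ 4 * κ ^ 2) * X ^ 2 * X ^ k := by
        field_simp
      have e2 : (bb (k + 2) * X ^ k)
          * (n2 + ((k + 2).factorial : ℝ) / bb (k + 2) * Q / X ^ k)
          = bb (k + 2) * n2 * X ^ k + ((k + 2).factorial : ℝ) * Q := by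
        field_simp
      rw [e1, e2]
      exact h4
    exact le_of_mul_le_mul_left this (by positivity)
  refine le_trans ?_ h5
  rw [mul_comm]
  apply mul_le_mul_of_nonneg_right _ (by positivity)
  -- κ - (r^4/b) κ^2 ≥ 1/a - C/a^2
  have hc := (cc_bounds (k + 2) hr).2.2.2.2
  have e1 : 1 / (a : ℝ) ≤ κ := by
    rw [hκ]
    apply one_div_le_one_div_of_le ha1
    linarith
  have e2 : κ ^ 2 ≤ 4 / (a : ℝ) ^ 2 := by
    have : κ ≤ 2 / (a : ℝ) := by
      rw [hκ, div_le_div_iff₀ ha1 hapos]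
      linarith
    calc κ ^ 2 ≤ (2 / (a : ℝ)) ^ 2 := by
          apply pow_le_pow_left₀ hκ0 this
      _ = 4 / (a : ℝ) ^ 2 := by rw [div_pow]; norm_num
  have e3 : ((k + 2 : ℕ) : ℝ) ^ 4 / bb (k + 2) ≤ ((k + 2 : ℕ) : ℝ) ^ 4 :=
    div_le_self (by positivity) (by linarith)
  have e4 : ((k + 2 : ℕ) : ℝ) ^ 4 / bb (k + 2) * κ ^ 2 ≤ cc (k + 2) / (a : ℝ) ^ 2 := by
    calc ((k + 2 : ℕ) : ℝ) ^ 4 / bb (k + 2) * κ ^ 2
        ≤ ((k + 2 : ℕ) : ℝ) ^ 4 * (4 / (a : ℝ) ^ 2) := by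
          apply mul_le_mul e3 e2 (by positivity) (by positivity)
      _ = (4 * ((k + 2 : ℕ) : ℝ) ^ 4) / (a : ℝ) ^ 2 := by ring
      _ ≤ cc (k + 2) / (a : ℝ) ^ 2 := by
          apply div_le_div_of_nonneg_right hc (by positivity)
  linarith


lemma sum_sdiff_univ {V : Type} [DecidableEq V] [Fintype V] (f : V → ℝ) (A : Finset V) :
    ∑ v ∈ univ \ A, f v = ∑ v, f v - ∑ v ∈ A, f v := by
  have := Finset.sum_sdiff (f := f) (Finset.subset_univ A)
  linarith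

theorem core (hMI : S_MI) (hFREE : S_FREE) (hMAX : S_MAX) (hKKT : S_KKT) (hORD : S_ORD)
    (hBL : S_BL) (hFP : S_FP) (hNUMF : S_NUMF) (hSEL : S_SEL) : S_CORE := by
  intro r hr
  have hbb := bb_ge r hr
  have hr3 : (3 : ℝ) ≤ r := by exact_mod_cast hr
  obtain ⟨hc1, hc2, hc3, hc4, hc5⟩ := cc_bounds r hr
  set C := cc r with hC
  have hrf : (0 : ℝ) < (r.factorial : ℝ) := by positivity
  have hrf1 : (1 : ℝ) ≤ (r.factorial : ℝ) := by
    exact_mod_cast Nat.one_le_iff_ne_zero.mpr (Nat.factorial_ne_zero r)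
  set R : ℝ := (r.factorial : ℝ) / bb r with hR
  have hR0 : 0 < R := by positivity
  obtain ⟨n1, hn11, hn1⟩ := hNUMF r C hr hc1
  obtain ⟨n2', hn21, hn2⟩ := hSEL r C R hr hc1 hR0
  obtain ⟨n3, hn3⟩ := exists_nat_ge (4 * bb r + (r : ℝ) + 4)
  refine ⟨max n1 (max n2' n3), ?_⟩
  intro a t G H hna hat hG hH V _ _ F y hF hy hy1 hfree
  by_contra hcon
  push Not at hcon
  have hn1a : (n1 : ℝ) ≤ a := by exact_mod_cast le_trans (le_max_left _ _) hna
  have hn2a : (n2' : ℝ) ≤ a := by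
    exact_mod_cast le_trans (le_trans (le_max_left _ _) (le_max_right _ _)) hna
  have hn3a : 4 * bb r + (r : ℝ) + 4 ≤ a := by
    refine le_trans hn3 ?_
    exact_mod_cast le_trans (le_trans (le_max_right _ _) (le_max_right _ _)) hna
  have hatR : (a : ℝ) ≤ t := by exact_mod_cast hat
  obtain ⟨x, hx, hx1, hxy, hdel⟩ := hMAX V F r y (by omega) hF hy hy1
  set Φ := ms x F univ with hΦ
  set 𝒬 := (univ : Finset V).powersetCard r \ F with h𝒬
  set q := ms x 𝒬 univ with hq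
  set N : ℝ := (a : ℝ) + (t : ℝ) with hN
  have hapos : (0 : ℝ) < a := by linarith
  have htpos : (0 : ℝ) < t := by linarith
  have hNpos : 0 < N := by linarith
  have hN1 : (0 : ℝ) < N - 1 := by linarith
  -- optimality gives a small defect
  have hbig : fp r (1 / (N - 1)) < (r.factorial : ℝ) * Φ := by
    refine lt_of_lt_of_le hcon ?_
    exact mul_le_mul_of_nonneg_left hxy hrf.le
  obtain ⟨hD0, hxD, hdgD, hsec⟩ := hKKT V F r x (by omega) hF hx hx1 hdel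
  rw [← hΦ] at hD0 hxD hdgD hsec
  rw [← h𝒬] at hdgD hsec
  rw [← hq] at hsec
  set D := 1 - (r.factorial : ℝ) * Φ with hD
  have hfpN := (hFP r (1 / (N - 1)) (by positivity) (by
    rw [mul_one_div, div_le_one hN1]; linarith)).1
  have hDle : D ≤ bb r / (N - 1) := by
    have : bb r * (1 / (N - 1)) = bb r / (N - 1) := by ring
    linarith
  have hN12 : N / 2 ≤ N - 1 := by linarith
  have hDle2 : D ≤ 2 * bb r / N := by
    refine hDle.trans ?_
    rw [div_le_div_iff₀ hN1 hNpos]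
    nlinarith
  have hxN : ∀ v, x v ≤ C / N := by
    intro v
    refine (hxD v).trans ?_
    calc (r : ℝ) * D ≤ (r : ℝ) * (2 * bb r / N) := by
          apply mul_le_mul_of_nonneg_left hDle2 (by linarith)
      _ = (2 * (r : ℝ) * bb r) / N := by ring
      _ ≤ C / N := by apply div_le_div_of_nonneg_right hc2 hNpos.le
  have hdgN : ∀ v, dg x 𝒬 v ≤ C / N * x v := by
    intro v
    have h1 := hdgD v
    have h2 : (r : ℝ) * D ≤ C / N := by
      calc (r : ℝ) * D ≤ (r : ℝ) * (2 * bb r / N) := by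
            apply mul_le_mul_of_nonneg_left hDle2 (by linarith)
        _ = (2 * (r : ℝ) * bb r) / N := by ring
        _ ≤ C / N := by apply div_le_div_of_nonneg_right hc2 hNpos.le
    have h3 : 0 ≤ dg x 𝒬 v := Finset.sum_nonneg (fun e _ => Finset.prod_nonneg (fun w _ => hx w))
    calc dg x 𝒬 v ≤ (r.factorial : ℝ) * dg x 𝒬 v := le_mul_of_one_le_left h3 hrf1
      _ ≤ (r : ℝ) * D * x v := h1
      _ ≤ C / N * x v := mul_le_mul_of_nonneg_right h2 (hx v)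
  have hq0 : 0 ≤ q := ms_nonneg x 𝒬 univ hx
  have hsecN : (∑ v, (x v) ^ 2) + R * q ≤ 1 / N + C / N ^ 2 := by
    have hb0 : 0 < bb r := by linarith
    have e1 : bb r * ((∑ v, (x v) ^ 2) + R * q) ≤ bb r * (1 / N + C / N ^ 2) := by
      have e2 : bb r * ((∑ v, (x v) ^ 2) + R * q)
          = bb r * (∑ v, (x v) ^ 2) + (r.factorial : ℝ) * q := by
        rw [hR]; field_simp
      rw [e2]
      refine hsec.trans ?_
      have e3 : D ^ 2 ≤ (2 * bb r / N) ^ 2 := pow_le_pow_left₀ hD0 hDle2 2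
      have e4 : bb r / (N - 1) ≤ bb r * (1 / N + 2 / N ^ 2) := by
        have : 1 / (N - 1) ≤ 1 / N + 2 / N ^ 2 := by
          have : 1 / N + 2 / N ^ 2 = (N + 2) / N ^ 2 := by field_simp
          rw [this, div_le_div_iff₀ hN1 (by positivity)]
          nlinarith
        calc bb r / (N - 1) = bb r * (1 / (N - 1)) := by ring
          _ ≤ bb r * (1 / N + 2 / N ^ 2) := mul_le_mul_of_nonneg_left this hb0.le
      have e5 : (r : ℝ) ^ 6 * D ^ 2 ≤ bb r * ((4 * (r : ℝ) ^ 6 * bb r) / N ^ 2) := by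
        calc (r : ℝ) ^ 6 * D ^ 2 ≤ (r : ℝ) ^ 6 * (2 * bb r / N) ^ 2 := by
              apply mul_le_mul_of_nonneg_left e3 (by positivity)
          _ = bb r * ((4 * (r : ℝ) ^ 6 * bb r) / N ^ 2) := by
              rw [div_pow]; ring
      have e6 : bb r * (1 / N + 2 / N ^ 2) + bb r * ((4 * (r : ℝ) ^ 6 * bb r) / N ^ 2)
          = bb r * (1 / N + (2 + 4 * (r : ℝ) ^ 6 * bb r) / N ^ 2) := by ring
      have e7 : bb r * (1 / N + (2 + 4 * (r : ℝ) ^ 6 * bb r) / N ^ 2)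
          ≤ bb r * (1 / N + C / N ^ 2) := by
        apply mul_le_mul_of_nonneg_left _ hb0.le
        have := div_le_div_of_nonneg_right hc3 (by positivity : (0:ℝ) ≤ N ^ 2)
        linarith
      linarith
    exact le_of_mul_le_mul_left e1 hb0
  have hcard : ∀ e ∈ 𝒬, e.card = r := by
    intro e he
    exact (Finset.mem_powersetCard.mp (Finset.mem_sdiff.mp he).1).2
  -- selection
  obtain ⟨A, B, hAB, hxA, hxB, hnA, hnB, hWU, hU, hW⟩ := hn2 a t hn2a hatR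
    ((a : ℝ) / N) ((1 - eta r) * ((a : ℝ) / N)) ((1 + eta r) * ((a : ℝ) / N)) N rfl rfl rfl rfl
    V x 𝒬 hcard hx hx1 hxN hdgN hsecN
  have hms0 : ∀ U : Finset V, 0 ≤ ms x 𝒬 U := fun U => ms_nonneg x 𝒬 U hx
  obtain ⟨hxA0, hxB1, hi, hii, hiii⟩ := hn1 a t hn1a hatR
    ((a : ℝ) / N) ((1 - eta r) * ((a : ℝ) / N)) ((1 + eta r) * ((a : ℝ) / N)) N rfl rfl rfl rfl
    (∑ v ∈ A, x v) (∑ v ∈ B, x v) (∑ v ∈ A, (x v) ^ 2) (∑ v ∈ B, (x v) ^ 2)
    (∑ v, (x v) ^ 2) q (ms x 𝒬 B) (ms x 𝒬 (univ \ A)) R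
    (Finset.sum_nonneg (fun v _ => sq_nonneg _)) hq0 (hms0 B) (hms0 _) hR0
    hxA hxB hnA hnB hsecN hWU hU hW
  have hxAB : ∑ v ∈ A, x v ≤ ∑ v ∈ B, x v :=
    Finset.sum_le_sum_of_subset_of_nonneg hAB (fun v _ _ => hx v)
  have hXAc : ∑ v ∈ univ \ A, x v = 1 - ∑ v ∈ A, x v := by rw [sum_sdiff_univ, hx1]
  have hXBc : ∑ v ∈ univ \ B, x v = 1 - ∑ v ∈ B, x v := by rw [sum_sdiff_univ, hx1]
  -- the complement of A contains H, B contains G
  have hEH : Emb H F (univ \ A) := by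
    by_contra hno
    have := free_moment hFREE hBL hFP r t H hr hH V F (univ \ A) x hF hx hno (by linarith)
      (by rw [hXAc]; linarith)
    rw [hXAc, sum_sdiff_univ (fun v => (x v) ^ 2) A, ← h𝒬, ← hR] at this
    exact absurd hi (not_lt.mpr this)
  have hEG : Emb G F B := by
    by_contra hno
    have := free_moment hFREE hBL hFP r a G hr hG V F B x hF hx hno (by linarith)
      (by linarith)
    rw [← h𝒬, ← hR] at this
    exact absurd hii (not_lt.mpr this)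
  obtain ⟨V1, V2, v, hAV1, hV1B, hBV2, hV2A, hdisj, hv1, hv2, huniv, hf1, hf2⟩ :=
    hORD V F a t G H A B hAB hfree hEH hEG
  -- the two sums
  have hX1 : ∑ v ∈ A, x v ≤ ∑ v ∈ V1, x v :=
    Finset.sum_le_sum_of_subset_of_nonneg hAV1 (fun v _ _ => hx v)
  have hX2 : 1 - ∑ v ∈ B, x v ≤ ∑ v ∈ V2, x v := by
    rw [← hXBc]
    exact Finset.sum_le_sum_of_subset_of_nonneg hBV2 (fun v _ _ => hx v)
  have hX1pos : 0 < ∑ v ∈ V1, x v := by linarith
  have hX2pos : 0 < ∑ v ∈ V2, x v := by linarith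
  have hsum1 : (∑ w ∈ V1, x w) + (∑ w ∈ V2, x w) + x v = 1 := by
    rw [← hx1, ← huniv, Finset.sum_insert, Finset.sum_union hdisj]
    · ring
    · simp [hv1, hv2]
  have ha1c : (((a - 1 : ℕ)) : ℝ) = (a : ℝ) - 1 := by
    rw [Nat.cast_sub]
    · simp
    · have : (1 : ℝ) ≤ a := by linarith
      exact_mod_cast this
  have ht1c : (((t - 1 : ℕ)) : ℝ) = (t : ℝ) - 1 := by
    rw [Nat.cast_sub]
    · simp
    · have : (1 : ℝ) ≤ t := by linarith
      exact_mod_cast this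
  have ha1pos : (0 : ℝ) < (a : ℝ) - 1 := by linarith
  have ht1pos : (0 : ℝ) < (t : ℝ) - 1 := by linarith
  have hm1 : 1 ≤ a - 1 := by
    have : (2 : ℝ) ≤ a := by linarith
    have : 2 ≤ a := by exact_mod_cast this
    omega
  have hm2 : 1 ≤ t - 1 := by
    have : (2 : ℝ) ≤ t := by linarith
    have : 2 ≤ t := by exact_mod_cast this
    omega
  have hba : bb r / ((a : ℝ) - 1) < 1 := by
    rw [div_lt_one ha1pos]; linarith
  have hbt : bb r / ((t : ℝ) - 1) < 1 := by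
    rw [div_lt_one ht1pos]; linarith
  have hE1 : (r.factorial : ℝ) * es x V1 r
      ≤ fp r (1 / (((a - 1 : ℕ)) : ℝ)) * (∑ w ∈ V1, x w) ^ r + (r.factorial : ℝ) * ms x 𝒬 V1 := by
    rw [ha1c, es_eq_ms_add x F r hF V1, mul_add]
    have := hFREE r a G (by omega) hG V F V1 x hF hx hf1
    linarith
  have hE2 : (r.factorial : ℝ) * es x V2 r
      ≤ fp r (1 / (((t - 1 : ℕ)) : ℝ)) * (∑ w ∈ V2, x w) ^ r + (r.factorial : ℝ) * ms x 𝒬 V2 := by
    rw [ht1c, es_eq_ms_add x F r hF V2, mul_add]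
    have := hFREE r t H (by omega) hH V F V2 x hF hx hf2
    linarith
  have hfin := hMI V x V1 V2 v hx hdisj hv1 hv2 hsum1 hX1pos hX2pos r (a - 1) (t - 1)
    ((r.factorial : ℝ) * ms x 𝒬 V1) ((r.factorial : ℝ) * ms x 𝒬 V2) hr
    (mul_nonneg hrf.le (hms0 _)) (mul_nonneg hrf.le (hms0 _)) hm1 hm2
    (by rw [ha1c]; exact hba) (by rw [ht1c]; exact hbt) hE1 hE2
  rw [huniv, ha1c, ht1c, es_eq_ms_add x F r hF univ, ← h𝒬, ← hq, ← hΦ] at hfin
  have hNN : (a : ℝ) - 1 + ((t : ℝ) - 1) + 1 = N - 1 := by rw [hN]; ring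
  rw [hNN] at hfin
  -- bounds for the error terms
  have hinv : ∀ m : ℝ, 4 * bb r + 4 ≤ m → 1 / (1 - bb r / (m - 1)) ≤ 1 + C / m := by
    intro m hm
    have hb0 : 0 < bb r := by linarith
    have hm0 : 0 < m := by linarith
    have hm1 : 0 < m - 1 := by linarith
    have hm2 : 0 < m - 1 - bb r := by linarith
    have e1 : 1 / (1 - bb r / (m - 1)) = (m - 1) / (m - 1 - bb r) := by
      have : 1 - bb r / (m - 1) = (m - 1 - bb r) / (m - 1) := by field_simp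
      rw [this, one_div_div]
    have e2 : 1 + C / m = (m + C) / m := by field_simp
    rw [e1, e2, div_le_div_iff₀ hm2 hm0]
    have : 4 * bb r * (m - 1 - bb r) ≤ C * (m - 1 - bb r) :=
      mul_le_mul_of_nonneg_right hc4 hm2.le
    nlinarith
  have herr : ∀ (U W : Finset V) (m X xW : ℝ), U ⊆ W → 4 * bb r + 4 ≤ m → 0 < xW → xW ≤ X →
      (r.factorial : ℝ) * ms x 𝒬 U / (X ^ (r - 2) * (1 - bb r / (m - 1)))
        ≤ (r.factorial : ℝ) * ((1 + C / m) * ms x 𝒬 W / xW ^ (r - 2)) := by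
    intro U W m X xW hUW hm hxW hX
    have hb0 : 0 < bb r := by linarith
    have hm1 : 0 < m - 1 := by linarith
    have hz : 0 < 1 - bb r / (m - 1) := by
      have : bb r / (m - 1) < 1 := by rw [div_lt_one hm1]; linarith
      linarith
    have hX0 : 0 < X := lt_of_lt_of_le hxW hX
    have e1 : (r.factorial : ℝ) * ms x 𝒬 U / (X ^ (r - 2) * (1 - bb r / (m - 1)))
        = (r.factorial : ℝ) * ((1 / (1 - bb r / (m - 1))) * ms x 𝒬 U / X ^ (r - 2)) := by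
      field_simp
    rw [e1]
    apply mul_le_mul_of_nonneg_left _ hrf.le
    apply div_le_div₀
    · apply mul_nonneg _ (hms0 _)
      have : 0 < m := by linarith
      have : 0 ≤ C / m := by positivity
      linarith
    · apply mul_le_mul (hinv m hm) (ms_mono x 𝒬 U W hUW hx) (hms0 _)
      have : 0 < m := by linarith
      have : 0 ≤ C / m := by positivity
      linarith
    · positivity
    · exact pow_le_pow_left₀ hxW.le hX _
  have hr1 := herr V1 B a (∑ w ∈ V1, x w) (∑ w ∈ A, x w) hV1B (by linarith) hxA0 hX1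
  have hr2 := herr V2 (univ \ A) t (∑ w ∈ V2, x w) (1 - ∑ w ∈ B, x w) hV2A (by linarith)
    (by linarith) hX2
  have hr3' := mul_le_mul_of_nonneg_left hiii hrf.le
  rw [mul_add] at hr3' hfin
  linarith

end Pool.Agent.W984.PH
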