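import Pool.Agent.W984.PH.Stm

set_option autoImplicit false

open Finset

namespace Pool.Agent.W984.PH

lemma append_inj {a b m : ℕ} (f1 : Fin a → Fin m) (f2 : Fin b → Fin m)
    (U1 U2 : Finset (Fin m)) (hd : Disjoint U1 U2) (h1 : Function.Injective f1)
    (h2 : Function.Injective f2) (g1 : ∀ i, f1 i ∈ U1) (g2 : ∀ i, f2 i ∈ U2) :
    Function.Injective (Fin.append f1 f2) := by
  intro i j
  refine Fin.addCases (fun i => ?_) (fun i => ?_) i
  · refine Fin.addCases (fun j => ?_) (fun j => ?_) j
    · intro h
      rw [Fin.append_left, Fin.append_left] at h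
      rw [h1 h]
    · intro h
      rw [Fin.append_left, Fin.append_right] at h
      exfalso
      exact Finset.disjoint_left.mp hd (g1 i) (h ▸ g2 j)
  · refine Fin.addCases (fun j => ?_) (fun j => ?_) j
    · intro h
      rw [Fin.append_left, Fin.append_right] at h
      exfalso
      exact Finset.disjoint_left.mp hd (g1 j) (h ▸ g2 i)
    · intro h
      rw [Fin.append_right, Fin.append_right] at h
      rw [h2 h]

lemma ms_univ {m : ℕ} (x : Fin m → ℝ) (F : Finset (Finset (Fin m))) :
    ms x F univ = ∑ e ∈ F, ∏ i ∈ e, x i := by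
  unfold ms
  rw [Finset.filter_true_of_mem]
  intro e _
  exact Finset.subset_univ e

theorem fin (hC : S_CORE) (hP : S_PERF) : S_FIN := by
  intro r hr lam hlam perfect hperf
  obtain ⟨n, hn⟩ := hC r hr
  refine ⟨max n 2, ?_⟩
  intro a b G H hGr hHr hna hnb hpG hpH
  have ha2 : 2 ≤ a := le_trans (le_max_right _ _) hna
  have hb2 : 2 ≤ b := le_trans (le_max_right _ _) hnb
  have han : n ≤ a := le_trans (le_max_left _ _) hna
  have hbn : n ≤ b := le_trans (le_max_left _ _) hnb
  have hG : LB r a G := (hP r hr lam hlam a G ha2).1 ((hperf a G).1 hpG)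
  have hH : LB r b H := (hP r hr lam hlam b H hb2).1 ((hperf b H).1 hpH)
  refine (hperf _ _).2 ((hP r hr lam hlam (a + b) _ (by omega)).2 ?_)
  intro m F hF hfree x hx hx1
  have key : ∀ U1 U2 : Finset (Fin m), Disjoint U1 U2 → Emb G F U1 → Emb H F U2 → False := by
    rintro U1 U2 hd ⟨f1, h1, g1, e1⟩ ⟨f2, h2, g2, e2⟩
    apply hfree
    refine ⟨Fin.append f1 f2, append_inj f1 f2 U1 U2 hd h1 h2 g1 g2, ?_⟩
    intro e he
    rcases Finset.mem_union.mp he with he | he
    · obtain ⟨e', he', rfl⟩ := Finset.mem_image.mp he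
      have : (e'.image (Fin.castAdd b)).image (Fin.append f1 f2) = e'.image f1 := by
        rw [Finset.image_image]
        apply Finset.image_congr
        intro i _
        simp
      rw [this]
      exact e1 e' he'
    · obtain ⟨e', he', rfl⟩ := Finset.mem_image.mp he
      have : (e'.image (Fin.natAdd a)).image (Fin.append f1 f2) = e'.image f2 := by
        rw [Finset.image_image]
        apply Finset.image_congr
        intro i _
        simp
      rw [this]
      exact e2 e' he'
  rw [← ms_univ]
  rcases le_total a b with hab | hab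
  · have := hn a b G H han hab hG hH (Fin m) F x hF hx hx1 key
    simpa using this
  · have := hn b a H G hbn hab hH hG (Fin m) F x hF hx hx1
      (fun U1 U2 hd e1 e2 => key U2 U1 hd.symm e2 e1)
    have e : (b : ℝ) + (a : ℝ) - 1 = (((a + b : ℕ)) : ℝ) - 1 := by push_cast; ring
    rw [e] at this
    exact this

end Pool.Agent.W984.PH
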