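import Mathlib

set_option autoImplicit false

open Finset

namespace Pool.Agent.W984.PH

/-- elementary symmetric function of degree `j` of the numbers `x v`, `v ∈ U` -/
noncomputable def es {V : Type} [DecidableEq V] (x : V → ℝ) (U : Finset V) (j : ℕ) : ℝ :=
  ∑ e ∈ U.powersetCard j, ∏ v ∈ e, x v

/-- total weight of the members of `F` that are contained in `U` -/
noncomputable def ms {V : Type} [DecidableEq V] (x : V → ℝ) (F : Finset (Finset V))
    (U : Finset V) : ℝ :=
  ∑ e ∈ F.filter (fun e => e ⊆ U), ∏ v ∈ e, x v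

/-- total weight of the members of `F` that contain the vertex `v` -/
noncomputable def dg {V : Type} [DecidableEq V] (x : V → ℝ) (F : Finset (Finset V))
    (v : V) : ℝ :=
  ∑ e ∈ F.filter (fun e => v ∈ e), ∏ w ∈ e, x w

/-- the product of `1 - j κ`, `j < r` -/
noncomputable def fp (r : ℕ) (κ : ℝ) : ℝ := ∏ j ∈ range r, (1 - (j : ℝ) * κ)

/-- the number `r (r - 1) / 2` -/
noncomputable def bb (r : ℕ) : ℝ := (r : ℝ) * ((r : ℝ) - 1) / 2

/-- there is an injective copy of `G` in `F` with all vertices in `U` -/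
def Emb {V : Type} [DecidableEq V] {a : ℕ} (G : Finset (Finset (Fin a)))
    (F : Finset (Finset V)) (U : Finset V) : Prop :=
  ∃ f : Fin a → V, Function.Injective f ∧ (∀ i, f i ∈ U) ∧ ∀ e ∈ G, e.image f ∈ F

/-- Lagrangian bound: every `r`-graph without a copy of `G` has `r!` times the Lagrangian at most
that of the complete `r`-graph on `a - 1` vertices (`a` is the number of vertices of `G`) -/
def LB (r a : ℕ) (G : Finset (Finset (Fin a))) : Prop :=
  ∀ (m : ℕ) (F : Finset (Finset (Fin m))), (∀ e ∈ F, e.card = r) →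
    (¬ ∃ f : Fin a → Fin m, Function.Injective f ∧ ∀ e ∈ G, e.image f ∈ F) →
    ∀ x : Fin m → ℝ, (∀ i, 0 ≤ x i) → ∑ i, x i = 1 →
      (r.factorial : ℝ) * ∑ e ∈ F, ∏ i ∈ e, x i ≤ fp r (1 / ((a : ℝ) - 1))

section basics
variable {V : Type} [DecidableEq V]

lemma es_zero (x : V → ℝ) (U : Finset V) : es x U 0 = 1 := by
  simp [es]

lemma es_one (x : V → ℝ) (U : Finset V) : es x U 1 = ∑ v ∈ U, x v := by
  unfold es
  rw [Finset.powersetCard_one]
  simp

lemma es_nonneg (x : V → ℝ) (U : Finset V) (hx : ∀ v ∈ U, 0 ≤ x v) (j : ℕ) : 0 ≤ es x U j := by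
  unfold es
  apply Finset.sum_nonneg
  intro e he
  apply Finset.prod_nonneg
  intro v hv
  exact hx v ((Finset.mem_powersetCard.mp he).1 hv)

lemma es_empty_succ (x : V → ℝ) (j : ℕ) : es x ∅ (j + 1) = 0 := by
  unfold es
  rw [Finset.powersetCard_eq_empty.mpr]
  · simp
  · simp

lemma es_insert (x : V → ℝ) (U : Finset V) (v : V) (hv : v ∉ U) (j : ℕ) :
    es x (insert v U) (j + 1) = es x U (j + 1) + x v * es x U j := by
  unfold es
  rw [Finset.powersetCard_succ_insert hv, Finset.sum_union]
  · congr 1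
    rw [Finset.sum_image, Finset.mul_sum]
    · apply Finset.sum_congr rfl
      intro e he
      rw [Finset.prod_insert]
      intro h
      exact hv ((Finset.mem_powersetCard.mp he).1 h)
    · intro e he f hf h
      have h1 : v ∉ e := fun h => hv ((Finset.mem_powersetCard.mp he).1 h)
      have h2 : v ∉ f := fun h => hv ((Finset.mem_powersetCard.mp hf).1 h)
      have := congrArg (fun s => s.erase v) h
      simpa [Finset.erase_insert h1, Finset.erase_insert h2] using this
  · rw [Finset.disjoint_left]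
    intro e he he'
    obtain ⟨f, hf, rfl⟩ := Finset.mem_image.mp he'
    exact hv ((Finset.mem_powersetCard.mp he).1 (Finset.mem_insert_self v f))

lemma es_erase (x : V → ℝ) (U : Finset V) (v : V) (hv : v ∈ U) (j : ℕ) :
    es x U (j + 1) = es x (U.erase v) (j + 1) + x v * es x (U.erase v) j := by
  conv_lhs => rw [← Finset.insert_erase hv]
  rw [es_insert _ _ _ (Finset.notMem_erase v U)]

/-- double counting of pairs (set, element) -/
lemma sum_es_erase (x : V → ℝ) (U : Finset V) (j : ℕ) :
    ∑ v ∈ U, x v * es x (U.erase v) j = ((j : ℝ) + 1) * es x U (j + 1) := by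
  induction U using Finset.induction_on generalizing j with
  | empty => simp [es_empty_succ]
  | insert a U ha ih =>
    rw [Finset.sum_insert ha, Finset.erase_insert ha]
    have h1 : ∀ v ∈ U, (insert a U).erase v = insert a (U.erase v) := by
      intro v hv
      rw [Finset.erase_insert_of_ne]
      rintro rfl
      exact ha hv
    rcases j with _ | j
    · have : ∑ v ∈ U, x v * es x ((insert a U).erase v) 0 = ∑ v ∈ U, x v := by
        apply Finset.sum_congr rfl
        intro v hv
        rw [es_zero, mul_one]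
      rw [this, es_zero, es_one, Finset.sum_insert ha]
      push_cast
      ring
    · have h2 : ∑ v ∈ U, x v * es x ((insert a U).erase v) (j + 1)
          = ∑ v ∈ U, x v * es x (U.erase v) (j + 1) + x a * ∑ v ∈ U, x v * es x (U.erase v) j := by
        rw [Finset.mul_sum, ← Finset.sum_add_distrib]
        apply Finset.sum_congr rfl
        intro v hv
        rw [h1 v hv, es_insert]
        · ring
        · intro h
          exact ha (Finset.mem_of_mem_erase h)
      rw [h2, ih, ih, es_insert _ _ _ ha]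
      push_cast
      ring

/-- the recursion for elementary symmetric functions with square terms -/
lemma es_rec (x : V → ℝ) (U : Finset V) (j : ℕ) :
    (∑ v ∈ U, x v) * es x U (j + 1)
      = ((j : ℝ) + 2) * es x U (j + 2) + ∑ v ∈ U, (x v) ^ 2 * es x (U.erase v) j := by
  have h1 := sum_es_erase x U (j + 1)
  have h2 : ∀ v ∈ U, x v * es x (U.erase v) (j + 1)
      = x v * es x U (j + 1) - (x v) ^ 2 * es x (U.erase v) j := by
    intro v hv
    rw [es_erase x U v hv j]
    ring
  rw [Finset.sum_congr rfl h2, Finset.sum_sub_distrib, ← Finset.sum_mul] at h1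
  push_cast at h1
  have : ((j : ℝ) + 1 + 1) = (j : ℝ) + 2 := by ring
  rw [this] at h1
  linarith

lemma es_mono (x : V → ℝ) (U W : Finset V) (h : U ⊆ W) (hx : ∀ v ∈ W, 0 ≤ x v) (j : ℕ) :
    es x U j ≤ es x W j := by
  unfold es
  apply Finset.sum_le_sum_of_subset_of_nonneg (Finset.powersetCard_mono h)
  intro e he _
  apply Finset.prod_nonneg
  intro v hv
  exact hx v ((Finset.mem_powersetCard.mp he).1 hv)

/-- `j! e_j ≤ X ^ j` -/
lemma es_le_pow (x : V → ℝ) (U : Finset V) (hx : ∀ v ∈ U, 0 ≤ x v) (j : ℕ) :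
    (j.factorial : ℝ) * es x U j ≤ (∑ v ∈ U, x v) ^ j := by
  induction j with
  | zero => simp [es_zero]
  | succ j ih =>
    have h1 := sum_es_erase x U j
    have h2 : ∑ v ∈ U, x v * es x (U.erase v) j ≤ ∑ v ∈ U, x v * es x U j := by
      apply Finset.sum_le_sum
      intro v hv
      exact mul_le_mul_of_nonneg_left (es_mono x _ _ (Finset.erase_subset _ _) hx j) (hx v hv)
    rw [← Finset.sum_mul, h1] at h2
    have hX : 0 ≤ ∑ v ∈ U, x v := Finset.sum_nonneg hx
    calc ((j + 1).factorial : ℝ) * es x U (j + 1)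
        = (j.factorial : ℝ) * (((j : ℝ) + 1) * es x U (j + 1)) := by
          rw [Nat.factorial_succ]; push_cast; ring
      _ ≤ (j.factorial : ℝ) * ((∑ v ∈ U, x v) * es x U j) := by
          apply mul_le_mul_of_nonneg_left h2; positivity
      _ = (∑ v ∈ U, x v) * ((j.factorial : ℝ) * es x U j) := by ring
      _ ≤ (∑ v ∈ U, x v) * (∑ v ∈ U, x v) ^ j := mul_le_mul_of_nonneg_left ih hX
      _ = (∑ v ∈ U, x v) ^ (j + 1) := by ring

lemma ms_nonneg (x : V → ℝ) (F : Finset (Finset V)) (U : Finset V) (hx : ∀ v, 0 ≤ x v) :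
    0 ≤ ms x F U :=
  Finset.sum_nonneg (fun _ _ => Finset.prod_nonneg (fun v _ => hx v))

lemma ms_mono (x : V → ℝ) (F : Finset (Finset V)) (U W : Finset V) (h : U ⊆ W)
    (hx : ∀ v, 0 ≤ x v) : ms x F U ≤ ms x F W := by
  unfold ms
  apply Finset.sum_le_sum_of_subset_of_nonneg
  · intro e he
    rw [Finset.mem_filter] at he ⊢
    exact ⟨he.1, he.2.trans h⟩
  · intro e _ _
    exact Finset.prod_nonneg (fun v _ => hx v)

/-- edges and non-edges of an `r`-graph -/
lemma es_eq_ms_add (x : V → ℝ) [Fintype V] (F : Finset (Finset V)) (r : ℕ)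
    (hF : ∀ e ∈ F, e.card = r) (U : Finset V) :
    es x U r = ms x F U + ms x ((Finset.univ : Finset V).powersetCard r \ F) U := by
  unfold es ms
  rw [← Finset.sum_union]
  · apply Finset.sum_congr _ (fun _ _ => rfl)
    ext e
    simp only [Finset.mem_powersetCard, Finset.mem_union, Finset.mem_filter, Finset.mem_sdiff,
      Finset.subset_univ, true_and]
    constructor
    · rintro ⟨h1, h2⟩
      by_cases h : e ∈ F
      · exact Or.inl ⟨h, h1⟩
      · exact Or.inr ⟨⟨h2, h⟩, h1⟩
    · rintro (⟨h1, h2⟩ | ⟨⟨h1, h2⟩, h3⟩)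
      · exact ⟨h2, hF e h1⟩
      · exact ⟨h3, h1⟩
  · rw [Finset.disjoint_left]
    intro e he he'
    simp only [Finset.mem_filter, Finset.mem_sdiff] at he he'
    exact he'.1.2 he.1

lemma fp_zero (κ : ℝ) : fp 0 κ = 1 := by simp [fp]

lemma fp_succ (r : ℕ) (κ : ℝ) : fp (r + 1) κ = fp r κ * (1 - (r : ℝ) * κ) := by
  simp [fp, Finset.prod_range_succ]

end basics

end Pool.Agent.W984.PH
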