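import Pool.Agent.W984.PH.Defs

set_option autoImplicit false

open Finset

namespace Pool.Agent.W984.PH

/-! ### elementary symmetric functions -/

/-- log-concavity of elementary symmetric functions -/
def S_LC : Prop :=
  ∀ (V : Type) [DecidableEq V] (x : V → ℝ) (U : Finset V), (∀ v ∈ U, 0 ≤ x v) →
    ∀ a b : ℕ, b ≤ a → es x U (a + 2) * es x U b ≤ es x U (a + 1) * es x U (b + 1)

/-- the size-biased means decrease -/
def S_KM : Prop :=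
  ∀ (V : Type) [DecidableEq V] (x : V → ℝ) (U : Finset V), (∀ v ∈ U, 0 ≤ x v) →
    ∀ j : ℕ, (∑ v ∈ U, (x v) ^ 2 * es x (U.erase v) (j + 1)) * (((j : ℝ) + 1) * es x U (j + 1))
      ≤ (∑ v ∈ U, (x v) ^ 2 * es x (U.erase v) j) * (((j : ℝ) + 2) * es x U (j + 2))

/-- a bound for `e_r` gives bounds for all earlier ones -/
def S_LM : Prop :=
  ∀ (V : Type) [DecidableEq V] (x : V → ℝ) (U : Finset V), (∀ v ∈ U, 0 ≤ x v) →
    ∀ (r : ℕ) (κ : ℝ), 1 ≤ r → 0 ≤ κ → ((r : ℝ) - 1) * κ < 1 →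
      (r.factorial : ℝ) * es x U r ≤ fp r κ * (∑ v ∈ U, x v) ^ r →
      ∀ i : ℕ, i ≤ r → (i.factorial : ℝ) * es x U i ≤ fp i κ * (∑ v ∈ U, x v) ^ i

/-- Maclaurin inequality -/
def S_MAC : Prop :=
  ∀ (V : Type) [DecidableEq V] (x : V → ℝ) (U : Finset V), (∀ v ∈ U, 0 ≤ x v) → 1 ≤ U.card →
    ∀ r : ℕ, (r.factorial : ℝ) * es x U r ≤ fp r (1 / (U.card : ℝ)) * (∑ v ∈ U, x v) ^ r

/-- lower Bonferroni bound -/
def S_BL : Prop :=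
  ∀ (V : Type) [DecidableEq V] (x : V → ℝ) (U : Finset V), (∀ v ∈ U, 0 ≤ x v) →
    ∀ r : ℕ, (∑ v ∈ U, x v) ^ (r + 2)
        - bb (r + 2) * (∑ v ∈ U, (x v) ^ 2) * (∑ v ∈ U, x v) ^ r
      ≤ ((r + 2).factorial : ℝ) * es x U (r + 2)

/-- upper Bonferroni bound -/
def S_BU : Prop :=
  ∀ (V : Type) [DecidableEq V] (x : V → ℝ) (U : Finset V) (μ : ℝ), (∀ v ∈ U, 0 ≤ x v) →
    (∀ v ∈ U, x v ≤ μ) → ∑ v ∈ U, x v = 1 →
    ∀ r : ℕ, (r.factorial : ℝ) * es x U r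
      ≤ 1 - bb r * (∑ v ∈ U, (x v) ^ 2) + (r : ℝ) ^ 4 * μ * (∑ v ∈ U, (x v) ^ 2)

/-- one-variable version for the falling product -/
def S_FP : Prop :=
  ∀ (r : ℕ) (κ : ℝ), 0 ≤ κ → ((r : ℝ) - 1) * κ ≤ 1 →
    1 - bb r * κ ≤ fp r κ ∧ fp r κ ≤ 1 - bb r * κ + (r : ℝ) ^ 4 * κ ^ 2 ∧ 0 ≤ fp r κ ∧ fp r κ ≤ 1

/-- the inequality of `S_LM` with an additive error -/
def S_STEP : Prop :=
  ∀ (V : Type) [DecidableEq V] (x : V → ℝ) (U : Finset V), (∀ v ∈ U, 0 ≤ x v) →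
    ∀ (r : ℕ) (κ P : ℝ), 2 ≤ r → 0 ≤ κ → bb r * κ < 1 → 0 ≤ P → 0 < ∑ v ∈ U, x v →
      (r.factorial : ℝ) * es x U r ≤ fp r κ * (∑ v ∈ U, x v) ^ r + P →
      ∀ i : ℕ, i ≤ r → (i.factorial : ℝ) * es x U i
        ≤ (fp i κ + bb i * (P / ((∑ v ∈ U, x v) ^ r * (bb r * (1 - bb r * κ)))))
          * (∑ v ∈ U, x v) ^ i

/-- product formula -/
def S_VAN : Prop :=
  ∀ (V : Type) [DecidableEq V] (x : V → ℝ) (U W : Finset V), Disjoint U W →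
    ∀ r : ℕ, es x (U ∪ W) r = ∑ p ∈ antidiagonal r, es x U p.1 * es x W p.2

/-- shifted binomial theorem -/
def S_ERR : Prop :=
  ∀ (X Y : ℝ) (k : ℕ), ∑ p ∈ antidiagonal (k + 2),
      bb p.1 * (X ^ p.1 / (p.1.factorial : ℝ)) * (Y ^ p.2 / (p.2.factorial : ℝ))
    = X ^ 2 / 2 * ((X + Y) ^ k / (k.factorial : ℝ))

/-- the comparison sum: `e_k` of `m1` numbers `X / m1` and `m2` numbers `Y / m2` -/
noncomputable def cv (m1 m2 : ℕ) (X Y : ℝ) (k : ℕ) : ℝ :=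
  ∑ p ∈ antidiagonal k, (fp p.1 (1 / (m1 : ℝ)) * (X ^ p.1 / (p.1.factorial : ℝ)))
    * (fp p.2 (1 / (m2 : ℝ)) * (Y ^ p.2 / (p.2.factorial : ℝ)))

/-- Maclaurin for the comparison vector -/
def S_UNI : Prop :=
  ∀ (m1 m2 : ℕ) (X Y z : ℝ), 1 ≤ m1 → 1 ≤ m2 → 0 ≤ X → 0 ≤ Y → 0 ≤ z → X + Y + z = 1 →
    ∀ r : ℕ, ((r + 1).factorial : ℝ) * (cv m1 m2 X Y (r + 1) + z * cv m1 m2 X Y r)
      ≤ fp (r + 1) (1 / ((m1 : ℝ) + (m2 : ℝ) + 1))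

/-- main inequality -/
def S_MI : Prop :=
  ∀ (V : Type) [DecidableEq V] (x : V → ℝ) (V1 V2 : Finset V) (v : V), (∀ w, 0 ≤ x w) →
    Disjoint V1 V2 → v ∉ V1 → v ∉ V2 →
    (∑ w ∈ V1, x w) + (∑ w ∈ V2, x w) + x v = 1 →
    0 < ∑ w ∈ V1, x w → 0 < ∑ w ∈ V2, x w →
    ∀ (r m1 m2 : ℕ) (P1 P2 : ℝ), 3 ≤ r → 0 ≤ P1 → 0 ≤ P2 →
      1 ≤ m1 → 1 ≤ m2 → bb r / (m1 : ℝ) < 1 → bb r / (m2 : ℝ) < 1 →
      (r.factorial : ℝ) * es x V1 r ≤ fp r (1 / (m1 : ℝ)) * (∑ w ∈ V1, x w) ^ r + P1 →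
      (r.factorial : ℝ) * es x V2 r ≤ fp r (1 / (m2 : ℝ)) * (∑ w ∈ V2, x w) ^ r + P2 →
      (r.factorial : ℝ) * es x (insert v (V1 ∪ V2)) r
        ≤ fp r (1 / ((m1 : ℝ) + (m2 : ℝ) + 1))
          + P1 / ((∑ w ∈ V1, x w) ^ (r - 2) * (1 - bb r / (m1 : ℝ)))
          + P2 / ((∑ w ∈ V2, x w) ^ (r - 2) * (1 - bb r / (m2 : ℝ)))

/-! ### hypergraphs -/

/-- a vertex set without a copy of `G` obeys the Lagrangian bound -/
def S_FREE : Prop :=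
  ∀ (r a : ℕ) (G : Finset (Finset (Fin a))), 1 ≤ r → LB r a G →
    ∀ (V : Type) [DecidableEq V] [Fintype V] (F : Finset (Finset V)) (U : Finset V) (x : V → ℝ),
      (∀ e ∈ F, e.card = r) → (∀ v, 0 ≤ x v) → ¬ Emb G F U →
      (r.factorial : ℝ) * ms x F U ≤ fp r (1 / ((a : ℝ) - 1)) * (∑ v ∈ U, x v) ^ r

/-- `perfect` in the frozen statement is the Lagrangian bound -/
def S_PERF : Prop :=
  ∀ r : ℕ, 3 ≤ r →
  ∀ lam : (m : ℕ) → Finset (Finset (Fin m)) → ℝ,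
    (∀ (m : ℕ) (E : Finset (Finset (Fin m))),
      lam m E = sSup {y : ℝ | ∃ x : Fin m → ℝ, (∀ i, 0 ≤ x i) ∧ ∑ i, x i = 1 ∧
        y = ∑ e ∈ E, ∏ i ∈ e, x i}) →
  ∀ (t : ℕ) (F : Finset (Finset (Fin t))), 2 ≤ t →
    ((sSup {y : ℝ | ∃ m : ℕ, ∃ G : Finset (Finset (Fin m)), (∀ e ∈ G, e.card = r) ∧
          (¬ ∃ f : Fin t → Fin m, Function.Injective f ∧ ∀ e ∈ F, e.image f ∈ G) ∧
          y = (r.factorial : ℝ) * lam m G}
        = (r.factorial : ℝ) * lam (t - 1)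
            (Finset.powersetCard r (Finset.univ : Finset (Fin (t - 1))))) ↔ LB r t F)

/-- existence of optimal weights, with the inequality obtained by deleting one vertex -/
def S_MAX : Prop :=
  ∀ (V : Type) [DecidableEq V] [Fintype V] (F : Finset (Finset V)) (r : ℕ) (y : V → ℝ), 1 ≤ r →
    (∀ e ∈ F, e.card = r) → (∀ v, 0 ≤ y v) → ∑ v, y v = 1 →
    ∃ x : V → ℝ, (∀ v, 0 ≤ x v) ∧ ∑ v, x v = 1 ∧ ms y F univ ≤ ms x F univ ∧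
      ∀ v, ms x F (univ.erase v) ≤ ms x F univ * (1 - x v) ^ r

/-- consequences of the deletion inequality -/
def S_KKT : Prop :=
  ∀ (V : Type) [DecidableEq V] [Fintype V] (F : Finset (Finset V)) (r : ℕ) (x : V → ℝ), 2 ≤ r →
    (∀ e ∈ F, e.card = r) → (∀ v, 0 ≤ x v) → ∑ v, x v = 1 →
    (∀ v, ms x F (univ.erase v) ≤ ms x F univ * (1 - x v) ^ r) →
    0 ≤ 1 - (r.factorial : ℝ) * ms x F univ ∧
    (∀ v, x v ≤ (r : ℝ) * (1 - (r.factorial : ℝ) * ms x F univ)) ∧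
    (∀ v, (r.factorial : ℝ) * dg x ((univ : Finset V).powersetCard r \ F) v
      ≤ (r : ℝ) * (1 - (r.factorial : ℝ) * ms x F univ) * x v) ∧
    bb r * (∑ v, (x v) ^ 2) + (r.factorial : ℝ) * ms x ((univ : Finset V).powersetCard r \ F) univ
      ≤ (1 - (r.factorial : ℝ) * ms x F univ)
        + (r : ℝ) ^ 6 * (1 - (r.factorial : ℝ) * ms x F univ) ^ 2

/-- choice of the three parts -/
def S_ORD : Prop :=
  ∀ (V : Type) [DecidableEq V] [Fintype V] (F : Finset (Finset V)) (a b : ℕ)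
    (G : Finset (Finset (Fin a))) (H : Finset (Finset (Fin b))) (A B : Finset V), A ⊆ B →
    (∀ U1 U2 : Finset V, Disjoint U1 U2 → Emb G F U1 → Emb H F U2 → False) →
    Emb H F (univ \ A) → Emb G F B →
    ∃ (V1 V2 : Finset V) (v : V), A ⊆ V1 ∧ V1 ⊆ B ∧ univ \ B ⊆ V2 ∧ V2 ⊆ univ \ A ∧
      Disjoint V1 V2 ∧ v ∉ V1 ∧ v ∉ V2 ∧ insert v (V1 ∪ V2) = univ ∧
      ¬ Emb G F V1 ∧ ¬ Emb H F V2

/-! ### random nested pairs of sets -/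

/-- weights of the three labels -/
noncomputable def wt (α β : ℝ) : Fin 3 → ℝ := ![α, β - α, 1 - β]

/-- expectation over independent labels -/
noncomputable def Ex {V : Type} [DecidableEq V] [Fintype V] (α β : ℝ)
    (f : (V → Fin 3) → ℝ) : ℝ :=
  ∑ ω : V → Fin 3, (∏ v, wt α β (ω v)) * f ω

/-- the smaller random set -/
def SA {V : Type} [DecidableEq V] [Fintype V] (ω : V → Fin 3) : Finset V :=
  univ.filter (fun v => ω v = 0)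

/-- the larger random set -/
def SB {V : Type} [DecidableEq V] [Fintype V] (ω : V → Fin 3) : Finset V :=
  univ.filter (fun v => ω v ≠ 2)

/-- total mass, probabilities of containment and avoidance -/
def S_PR : Prop :=
  ∀ (V : Type) [DecidableEq V] [Fintype V] (α β : ℝ),
    Ex (V := V) α β (fun _ => 1) = 1 ∧
    (∀ e : Finset V, Ex α β (fun ω => if e ⊆ SB ω then 1 else 0) = β ^ e.card) ∧
    (∀ e : Finset V, Ex α β (fun ω => if Disjoint e (SA ω) then 1 else 0) = (1 - α) ^ e.card)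

/-- second moments of linear statistics, also on the event that a given vertex is in `SA` -/
def S_SM : Prop :=
  ∀ (V : Type) [DecidableEq V] [Fintype V] (α β : ℝ), 0 ≤ α → α ≤ β → β ≤ 1 →
    ∀ y : V → ℝ,
    Ex α β (fun ω => (∑ v ∈ SA ω, y v - α * ∑ v, y v) ^ 2) ≤ α * ∑ v, (y v) ^ 2 ∧
    Ex α β (fun ω => (∑ v ∈ SB ω, y v - β * ∑ v, y v) ^ 2) ≤ β * ∑ v, (y v) ^ 2 ∧
    (∀ w, Ex α β (fun ω => (if w ∈ SA ω then 1 else 0) * (∑ v ∈ SA ω, y v - α * ∑ v, y v) ^ 2)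
      ≤ α * (α * ∑ v, (y v) ^ 2 + (y w) ^ 2)) ∧
    (∀ w, Ex α β (fun ω => (if w ∈ SA ω then 1 else 0) * (∑ v ∈ SB ω, y v - β * ∑ v, y v) ^ 2)
      ≤ α * (β * ∑ v, (y v) ^ 2 + (y w) ^ 2))

/-- second moment of the weight of the sets missed by `SA` -/
def S_COV : Prop :=
  ∀ (V : Type) [DecidableEq V] [Fintype V] (α β : ℝ), 0 ≤ α → α ≤ β → β ≤ 1 →
    ∀ (𝒬 : Finset (Finset V)) (r : ℕ) (x : V → ℝ), (∀ e ∈ 𝒬, e.card = r) → (∀ v, 0 ≤ x v) →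
      Ex α β (fun ω => (ms x 𝒬 (univ \ SA ω) - (1 - α) ^ r * ms x 𝒬 univ) ^ 2)
        ≤ α * ∑ v, (dg x 𝒬 v) ^ 2

/-! ### numerical parameters -/

/-- the parameter eta -/
noncomputable def eta (r : ℕ) : ℝ := 1 / (100 * (r : ℝ))

/-- the parameter delta -/
noncomputable def del (r : ℕ) : ℝ := eta r / 4 ^ r

/-- bounds for expected values -/
def S_NUME : Prop :=
  ∀ (r : ℕ) (C : ℝ), 3 ≤ r → 1 ≤ C → ∃ n : ℕ, 1 ≤ n ∧ ∀ s t : ℝ, (n : ℝ) ≤ s → s ≤ t →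
    ∀ σ α β : ℝ, σ = s / (s + t) → α = (1 - eta r) * σ → β = (1 + eta r) * σ →
      0 < α - del r * σ ∧ 1 / 4 ≤ 1 - β - del r * σ ∧
      (1 + C / s) * β ^ r / (α - del r * σ) ^ (r - 2) ≤ 6 / 5 * σ ^ 2 ∧
      (1 + C / t) * (1 - α) ^ r / (1 - β - del r * σ) ^ (r - 2) ≤ (1 - σ) * (1 - 4 / 5 * σ) ∧
      (1 + C / t) * (del r * σ) / (1 - β - del r * σ) ^ (r - 2) ≤ σ / 5

/-- final numerical implication -/
def S_NUMF : Prop :=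
  ∀ (r : ℕ) (C : ℝ), 3 ≤ r → 1 ≤ C → ∃ n : ℕ, 1 ≤ n ∧ ∀ s t : ℝ, (n : ℝ) ≤ s → s ≤ t →
    ∀ σ α β N : ℝ, N = s + t → σ = s / N → α = (1 - eta r) * σ → β = (1 + eta r) * σ →
    ∀ xA xB nA nB n2 q QB QA R : ℝ, 0 ≤ n2 → 0 ≤ q → 0 ≤ QB → 0 ≤ QA → 0 < R →
      |xA - α| ≤ del r * σ → |xB - β| ≤ del r * σ →
      |nA - α * n2| ≤ del r * σ / N → |nB - β * n2| ≤ del r * σ / N →
      n2 + R * q ≤ 1 / N + C / N ^ 2 →
      (1 + C / s) * QB / (α - del r * σ) ^ (r - 2)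
        + (1 + C / t) * QA / (1 - β - del r * σ) ^ (r - 2) ≤ q →
      R * ((1 + C / t) * QA / (1 - β - del r * σ) ^ (r - 2))
        ≤ R * q * (1 - α) + del r * σ / N →
      R * ((1 + C / s) * QB / (α - del r * σ) ^ (r - 2))
        ≤ R * q * β + 2 * (del r * σ / N) →
      0 < xA ∧ xB < 1 ∧
      (n2 - nA) + R * QA / (1 - xA) ^ (r - 2) < (1 - xA) ^ 2 * (1 / t - C / t ^ 2) ∧
      nB + R * QB / xB ^ (r - 2) < xB ^ 2 * (1 / s - C / s ^ 2) ∧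
      (1 + C / s) * QB / xA ^ (r - 2) + (1 + C / t) * QA / (1 - xB) ^ (r - 2) ≤ q

/-- selection of a nested pair -/
def S_SEL : Prop :=
  ∀ (r : ℕ) (C R : ℝ), 3 ≤ r → 1 ≤ C → 0 < R → ∃ n : ℕ, 1 ≤ n ∧ ∀ s t : ℝ, (n : ℝ) ≤ s → s ≤ t →
    ∀ σ α β N : ℝ, N = s + t → σ = s / N → α = (1 - eta r) * σ → β = (1 + eta r) * σ →
    ∀ (V : Type) [DecidableEq V] [Fintype V] (x : V → ℝ) (𝒬 : Finset (Finset V)),
      (∀ e ∈ 𝒬, e.card = r) → (∀ v, 0 ≤ x v) → ∑ v, x v = 1 → (∀ v, x v ≤ C / N) →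
      (∀ v, dg x 𝒬 v ≤ C / N * x v) →
      (∑ v, (x v) ^ 2) + R * ms x 𝒬 univ ≤ 1 / N + C / N ^ 2 →
      ∃ A B : Finset V, A ⊆ B ∧
        |∑ v ∈ A, x v - α| ≤ del r * σ ∧ |∑ v ∈ B, x v - β| ≤ del r * σ ∧
        |∑ v ∈ A, (x v) ^ 2 - α * ∑ v, (x v) ^ 2| ≤ del r * σ / N ∧
        |∑ v ∈ B, (x v) ^ 2 - β * ∑ v, (x v) ^ 2| ≤ del r * σ / N ∧
        (1 + C / s) * ms x 𝒬 B / (α - del r * σ) ^ (r - 2)
          + (1 + C / t) * ms x 𝒬 (univ \ A) / (1 - β - del r * σ) ^ (r - 2) ≤ ms x 𝒬 univ ∧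
        R * ((1 + C / t) * ms x 𝒬 (univ \ A) / (1 - β - del r * σ) ^ (r - 2))
          ≤ R * ms x 𝒬 univ * (1 - α) + del r * σ / N ∧
        R * ((1 + C / s) * ms x 𝒬 B / (α - del r * σ) ^ (r - 2))
          ≤ R * ms x 𝒬 univ * β + 2 * (del r * σ / N)

/-! ### the core -/

/-- the core statement: the Lagrangian bound for the union -/
def S_CORE : Prop :=
  ∀ r : ℕ, 3 ≤ r → ∃ n : ℕ, ∀ (a b : ℕ) (G : Finset (Finset (Fin a)))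
    (H : Finset (Finset (Fin b))), n ≤ a → a ≤ b → LB r a G → LB r b H →
    ∀ (V : Type) [DecidableEq V] [Fintype V] (F : Finset (Finset V)) (y : V → ℝ),
      (∀ e ∈ F, e.card = r) → (∀ v, 0 ≤ y v) → ∑ v, y v = 1 →
      (∀ U1 U2 : Finset V, Disjoint U1 U2 → Emb G F U1 → Emb H F U2 → False) →
      (r.factorial : ℝ) * ms y F univ ≤ fp r (1 / ((a : ℝ) + (b : ℝ) - 1))

/-- the statement in the form of the frozen file -/
def S_FIN : Prop :=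
  ∀ r : ℕ, 3 ≤ r →
  ∀ lam : (m : ℕ) → Finset (Finset (Fin m)) → ℝ,
    (∀ (m : ℕ) (E : Finset (Finset (Fin m))),
      lam m E = sSup {y : ℝ | ∃ x : Fin m → ℝ, (∀ i, 0 ≤ x i) ∧ ∑ i, x i = 1 ∧
        y = ∑ e ∈ E, ∏ i ∈ e, x i}) →
  ∀ perfect : (t : ℕ) → Finset (Finset (Fin t)) → Prop,
    (∀ (t : ℕ) (F : Finset (Finset (Fin t))), perfect t F ↔
      sSup {y : ℝ | ∃ m : ℕ, ∃ G : Finset (Finset (Fin m)), (∀ e ∈ G, e.card = r) ∧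
          (¬ ∃ f : Fin t → Fin m, Function.Injective f ∧ ∀ e ∈ F, e.image f ∈ G) ∧
          y = (r.factorial : ℝ) * lam m G}
        = (r.factorial : ℝ) * lam (t - 1) (Finset.powersetCard r (Finset.univ : Finset (Fin (t - 1))))) →
  ∃ n : ℕ, ∀ (a b : ℕ) (G : Finset (Finset (Fin a))) (H : Finset (Finset (Fin b))),
    (∀ e ∈ G, e.card = r) → (∀ e ∈ H, e.card = r) → n ≤ a → n ≤ b →
    perfect a G → perfect b H →
    perfect (a + b) (G.image (fun e => e.image (Fin.castAdd b)) ∪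
      H.image (fun e => e.image (Fin.natAdd a)))

end Pool.Agent.W984.PH
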